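import Mathlib

/-!
# Project NP: 2-near perfect numbers `2^k p^m`, `m ≥ 3` (MP_d695ac_nt)

THEOREM. For `m ≥ 3` and `p` prime: `2^k p^m` is 2-near perfect iff `m = 3` and `p = 2^(k+1) - 1`.

Notation in the proofs: `N = 2^(k+1)`, `A = 2^a`, `C = 2^c` (so `A, C ∣ N/2 = 2^k`).
-/

set_option autoImplicit false

namespace Pool.Agent.V5helper63.NP

/-- `σ(n) = 2 n + 2^a p^b + 2^c p^d` for `n = 2^k p^m`, multiplied by `p - 1` -/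
def Eqn (k m p a b c d : ℕ) : Prop :=
  (2 : ℤ) ^ (k + 1) * ((p : ℤ) ^ m - 1) - ((p : ℤ) ^ (m + 1) - 1) =
    ((p : ℤ) - 1) * (2 ^ a * (p : ℤ) ^ b + 2 ^ c * (p : ℤ) ^ d)

/-- **CA** (80 lines). `N < 2p`, so `A, C < p` and (RHS > 0) `N > p`. Mod `p`: `N ≡ 1 + A[b=0] + C[d=0]`.
(1) `b, d ≥ 1`: `N = p+1`, so `p^(m-1) - 1 = (p-1)(A p^(b-1) + C p^(d-1))`; not both `b, d ≥ 2` (mod p), say `b = 1`. If `d = 1`: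
`A + C ≥ p + 1 = N` but `A ≠ C` are powers of 2 `≤ N/2`. If `d ≥ 2`: `A ≡ 1 (mod p)`, `A = 1`, `p^(m-2) - 1 = (p-1) C p^(d-2)`, so `d = 2`
(mod p), `(p-1) C = p^(m-2) - 1`; `m = 3` is the conclusion, `m ≥ 4` gives `C ≥ p+1 = N`.
(2) `b = 0, d ≥ 1`: `N = p + 1 + A`, so `A` is even, `(1+A)(p^(m-1) - 1) = (p-1) C p^(d-1)`, i.e. `(1+A) ∑_{i<m-1} p^i = C p^(d-1)`;
`1 + A = N - p < p` is odd, coprime to `p`, so `1 + A ∣ 1`, contradiction. (Same for `d = 0`.)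
(3) `b = d = 0`: `p^m (N-p) - N + 1 = (p-1)(A+C) ≤ (p-1) N`, so `p^3 < N p < 2 p^2`, contradiction. -/
def S_CA : Prop := ∀ k m p a b c d : ℕ, p.Prime → 3 ≤ p → 3 ≤ m → a ≤ k → c ≤ k → (a, b) ≠ (c, d) →
  2 ^ (k + 1) < 2 * p → Eqn k m p a b c d → m = 3 ∧ p + 1 = 2 ^ (k + 1)

/-- **B0** (60 lines). `D = A p^b` is at least half of the sum `= ((N-p)(p^m-1) - (p-1))/(p-1)`, and `N - p ≥ N/2`, so
`D > N p^(m-1) / 4`; as `A ≤ N/2`, `2 p^b > p^(m-1)`, so `b ≥ m-1`; if `b = m-1` then `A > N/4`, so `A = N/2`. -/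
def S_B0 : Prop := ∀ k m p a b c d : ℕ, p.Prime → 3 ≤ p → 3 ≤ m → a ≤ k → c ≤ k → b ≤ m → d ≤ m →
  2 * p < 2 ^ (k + 1) → 2 ^ c * p ^ d ≤ 2 ^ a * p ^ b → Eqn k m p a b c d → b = m ∨ (a = k ∧ b + 1 = m)

/-- **B1** (60 lines). The equation is `p^(m-1) (N (p+1)/2 - p^2) = (N-1) + (p-1) C p^d` (∗). By the size condition
`p^(m-1) (N - p^2) < N - 1`, so `N ≤ p^2`, `N < p^2`. If `d ≥ 2` then `p^2 ∣ N - 1`, contradiction. If `d ≤ 1`: RHS of (∗) is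
`≤ N - 1 + (p-1) p N/2`, LHS `≥ p^2 (N (p+1)/2 - p^2)` (the bracket is positive), so `N (p^3+p-2) ≤ 2 p^4 - 2 < 2 p (p^3+p-2)`, `N < 2p`. -/
def S_B1 : Prop := ∀ k m p c d : ℕ, p.Prime → 3 ≤ p → 3 ≤ m → c ≤ k →
  2 * p < 2 ^ (k + 1) → 2 ^ c * p ^ d < 2 ^ k * p ^ (m - 1) → Eqn k m p k (m - 1) c d → False

/-- **B2** (60 lines). The equation is `p^m T = (N-1) + (p-1) C p^d`, `T = N - p - (p-1) A`; `2 p T ≥ (p+1) N - 2 p^2 > 0`, `2 C ≤ N`, so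
`p^m ((p+1) N - 2 p^2) ≤ 2 p N - 2 p + (p-1) N p^(d+1)` (∗). With `d+1 ≤ m`: `p^(m-1) (N - p^2) ≤ N - 1`; if `N > p^2` then
`(p^(m-1) - 1)(N - p^2) ≤ p^2 - 1`, so `N = p^2 + 1`, impossible mod 4 (`8 ∣ N`). So `N < p^2`. If `d ≥ 2` then `p^2 ∣ N - 1`. If
`d ≤ 1`, (∗) gives `p^3 ((p+1) N - 2 p^2) ≤ 2 p N - 2 p + (p-1) N p^2`, `N (p^3+p-2) ≤ 2 p^4 - 2`, `N < 2 p`. -/
def S_B2 : Prop := ∀ k m p a c d : ℕ, p.Prime → 3 ≤ p → 3 ≤ m → a ≤ k → c ≤ k → d < m →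
  2 * p < 2 ^ (k + 1) → 2 ^ a * (2 * p) ≤ 2 ^ (k + 1) → Eqn k m p a m c d → False

/-- **B3** (100 lines). As in B2 `p^m T = (N-1) + (p-1) C p^d`, `T = N - p - (p-1) A ≥ 1`, so `N > (p-1) A`; `N/A` is a power of 2,
so `N ≥ (p+1) A`, `T ≥ 2 A - p`; `2 C ≤ N < 2 p A`. With `d ≤ m-2`: `A (p^m + p^(m-1) - 2p) < p^(m+1)`, so `A < p`, `N < 2 p^2`, `C < p^2`.
`d ≥ 3`: `p^3 ∣ N - 1`, contradiction. `d = 2`: `p^2 ∣ N - 1`, `N = p^2 + 1`, contradiction mod 4 (`8 ∣ N`).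
`d = 1`: RHS `< 2 p^2 + (p-1) p^3 ≤ p^4`, so `m = 3`; `N = 1 + p w`, and the equation becomes `(p^2+p+1) w = C + p^2 (A+1)`; if
`w ≥ A + 1` then `C ≥ (p+1) w > N/2`; if `w ≤ A < p` then `C ≤ (p+1) w - p^2 < 0`.
`d = 0`: RHS `< 2 p^2 + (p-1) p^2`, so `m = 3`, `T = 1`, `N = p + 1 + (p-1) A`, so `A + C = p (p+1)`, `C < p^2`, so `A > p`, contradiction. -/
def S_B3 : Prop := ∀ k m p a c d : ℕ, p.Prime → 3 ≤ p → 3 ≤ m → a ≤ k → c ≤ k → d + 2 ≤ m →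
  2 * p < 2 ^ (k + 1) → 2 ^ (k + 1) < 2 ^ a * (2 * p) → Eqn k m p a m c d → False

/-- **V2** (40 lines). Powers of 2 dividing `1 + p + ... + p^m`: `m` even: the sum is odd. `m` odd: `2^t ∣ (p^(m+1) - 1)/(p-1)`, by
`Nat.two_pow_sub_pow` (LTE) `2^t ≤ (p+1)(m+1)/2`. -/
def S_V2 : Prop := ∀ m p t : ℕ, Odd p → 3 ≤ p → 2 ^ t ∣ ∑ i ∈ Finset.range (m + 1), p ^ i →
  (Even m → t = 0) ∧ 2 ^ (t + 1) ≤ (p + 1) * (m + 1)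

/-- **B4** (90 lines, uses V2). `p^m T = (N-1) + (p-1) C p^(m-1)`, `T = N - p - (p-1) A`, so `N = 1 + p^(m-1) w`, `p T = w + (p-1) C`,
`N ≥ (p+1) A` (as in B3), so `(p-1) C ≥ (N - p^2 - w) + (p-1) A ≥ (p-1) A` (as `N - p^2 - w = (p^(m-1) - 1) w - (p^2 - 1) ≥ 0`); so `A ≤ C`,
`A ∣ C`, `A ∣ N`, so `A` divides `∑_{i ≤ m} p^i` (the equation divided by `p-1`: `N S_m - S_(m+1) = A p^m + C p^(m-1)`). V2: `m` even gives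
`A = 1`, `N < 2p`; `m` odd: `N < 2 p A ≤ p (p+1)(m+1)`, `p^(m-1) < N`, so `m = 3` (`p^(m-2) ≥ (p+1)(m+1)` for `m ≥ 5`), and
`1 + p^2 w < 4 p (p+1)`, `8 ∣ N`, `p^2 ≡ 1 (mod 8)` so `w ≡ 7 (mod 8)`, `w ≥ 7`, contradiction. -/
def S_B4 : Prop := ∀ k m p a c : ℕ, p.Prime → 3 ≤ p → 3 ≤ m → a ≤ k → c ≤ k →
  2 * p < 2 ^ (k + 1) → 2 ^ (k + 1) < 2 ^ a * (2 * p) → Eqn k m p a m c (m - 1) → False

/-- **B5** (90 lines, uses V2). The equation is `p^m T = N - 1`, `T = N - p - (p-1)(A+C)`, `A < C`. `(p-1) C < N` and `N/C` is a power of 2, so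
`(p+1) C ≤ N`, so `(p^2-1) A ≥ 2 N - (p+1)(p+T) > N` (`(p+1) T ≤ (p+1) N / p^3 ≤ 4N/27`, `(p+1) p ≤ 4N/9`). `A ∣ N`, `A ∣ C`, so `A` divides
`∑_{i ≤ m} p^i`. V2: `m` even gives `A = 1`, `N < p^2`, but `N > p^3`. `m` odd: `p^m < N < (p^2-1) A ≤ (p^2-1)(p+1)(m+1)/2`, so `m = 3`
and `1 + p^3 T < 2 (p+1)(p^2-1)`, so `T ≤ 2`, `T` odd, `T = 1`, `N = p^3 + 1 = (p+1)(p^2-p+1)`, `p^2-p+1` is odd and `> 1`, contradiction. -/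
def S_B5 : Prop := ∀ k m p a c : ℕ, p.Prime → 3 ≤ p → 3 ≤ m → a < c → c ≤ k →
  2 * p < 2 ^ (k + 1) → Eqn k m p a m c m → False

end Pool.Agent.V5helper63.NP
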